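import Pool.Agent.N963.KL.Stm

set_option autoImplicit false

/-!
# Project KL, task SUM: the sum over the terms of the kernel of Xi
-/

namespace Pool.Agent.N265.KL

open Complex Filter Topology MeasureTheory
open Pool.Agent.N963.KL (kt Kx Jx S_SUM)

/-- The elementary bound for the terms of the kernel. -/
theorem kt_bd (n : ℕ) (t : ℝ) :
    |kt n t| ≤ 240 * (1 / ((n : ℝ) + 1) ^ 2) * (Real.exp (-(3 * t / 2)) * Real.exp (-(Real.exp (2 * t) / 2))) := by
  set m : ℝ := (n : ℝ) + 1 with hm
  have hm1 : 1 ≤ m := by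
    rw [hm]
    have : (0 : ℝ) ≤ n := Nat.cast_nonneg n
    linarith
  have hm0 : 0 < m := by linarith
  have hpi : 1 ≤ Real.pi := by linarith [Real.pi_gt_three]
  set y : ℝ := Real.exp (2 * t) with hy
  have hy0 : 0 < y := Real.exp_pos _
  set u : ℝ := Real.pi * m ^ 2 * y with hu
  have hu0 : 0 < u := by positivity
  have hk : kt n t = Real.exp (t / 2) * ((4 * u ^ 2 - 6 * u) * Real.exp (-u)) := by
    have h9 : Real.exp (9 * t / 2) = Real.exp (t / 2) * y ^ 2 := by
      rw [hy, ← Real.exp_nat_mul, ← Real.exp_add]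
      congr 1
      push_cast
      ring
    have h5 : Real.exp (5 * t / 2) = Real.exp (t / 2) * y := by
      rw [hy, ← Real.exp_add]
      congr 1
      ring
    unfold kt
    rw [h9, h5, ← hm, ← hy, hu]
    ring
  have hE : 1 ≤ Real.exp (u / 2) := Real.one_le_exp (by positivity)
  have h3 : u ^ 3 ≤ 48 * Real.exp (u / 2) := by
    have := Real.pow_div_factorial_le_exp (u / 2) (by positivity) 3
    have h6 : ((Nat.factorial 3 : ℕ) : ℝ) = 6 := by norm_num [Nat.factorial]
    rw [h6] at this
    nlinarith [this]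
  have h2 : u ^ 2 ≤ 8 * Real.exp (u / 2) := by
    have := Real.pow_div_factorial_le_exp (u / 2) (by positivity) 2
    have h6 : ((Nat.factorial 2 : ℕ) : ℝ) = 2 := by norm_num [Nat.factorial]
    rw [h6] at this
    nlinarith [this]
  have hb : |4 * u ^ 2 - 6 * u| * u ≤ 240 * Real.exp (u / 2) := by
    have h : |4 * u ^ 2 - 6 * u| ≤ 4 * u ^ 2 + 6 * u := by
      rw [abs_le]
      constructor <;> nlinarith [sq_nonneg u]
    calc |4 * u ^ 2 - 6 * u| * u ≤ (4 * u ^ 2 + 6 * u) * u := by gcongr
      _ = 4 * u ^ 3 + 6 * u ^ 2 := by ring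
      _ ≤ _ := by linarith
  have hb2 : |4 * u ^ 2 - 6 * u| * Real.exp (-u) ≤ 240 * (1 / u) * Real.exp (-(u / 2)) := by
    have h1 : |4 * u ^ 2 - 6 * u| ≤ 240 * Real.exp (u / 2) / u := by
      rw [le_div_iff₀ hu0]
      exact hb
    calc |4 * u ^ 2 - 6 * u| * Real.exp (-u) ≤ 240 * Real.exp (u / 2) / u * Real.exp (-u) := by
          gcongr
      _ = 240 * (1 / u) * (Real.exp (u / 2) * Real.exp (-u)) := by ring
      _ = _ := by
          rw [← Real.exp_add]
          congr 2
          ring
  have hu1 : m ^ 2 * y ≤ u := by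
    rw [hu]
    have : 0 ≤ m ^ 2 * y := by positivity
    nlinarith
  have hu2 : y ≤ u := by
    have : 1 ≤ m ^ 2 := by nlinarith
    nlinarith
  have hiu : 1 / u ≤ 1 / m ^ 2 * Real.exp (-(2 * t)) := by
    have h1 : 1 / u ≤ 1 / (m ^ 2 * y) := one_div_le_one_div_of_le (by positivity) hu1
    have h2 : 1 / (m ^ 2 * y) = 1 / m ^ 2 * Real.exp (-(2 * t)) := by
      rw [Real.exp_neg, ← hy]
      field_simp
    linarith
  rw [hk, abs_mul, abs_mul, abs_of_pos (Real.exp_pos _), abs_of_pos (Real.exp_pos _)]
  calc Real.exp (t / 2) * (|4 * u ^ 2 - 6 * u| * Real.exp (-u))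
      ≤ Real.exp (t / 2) * (240 * (1 / u) * Real.exp (-(u / 2))) := by gcongr
    _ ≤ Real.exp (t / 2) * (240 * (1 / m ^ 2 * Real.exp (-(2 * t))) * Real.exp (-(y / 2))) := by
        have : Real.exp (-(u / 2)) ≤ Real.exp (-(y / 2)) := by
          apply Real.exp_le_exp.mpr
          linarith
        gcongr
    _ = 240 * (1 / m ^ 2) * ((Real.exp (t / 2) * Real.exp (-(2 * t))) * Real.exp (-(y / 2))) := by ring
    _ = _ := by
        rw [← Real.exp_add]
        congr 4
        ring

/-- The translation of the terms of the kernel. -/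
theorem kt_shift (n : ℕ) (s : ℝ) :
    kt 0 (s + Real.log ((n : ℝ) + 1)) = Real.exp (Real.log ((n : ℝ) + 1) / 2) * kt n s := by
  set l : ℝ := Real.log ((n : ℝ) + 1) with hl
  have hm : (n : ℝ) + 1 = Real.exp l := by
    rw [hl, Real.exp_log (by positivity)]
  have h9 : Real.exp (9 * (s + l) / 2) = Real.exp (9 * s / 2) * Real.exp (l / 2) * Real.exp l ^ 4 := by
    rw [← Real.exp_nat_mul, ← Real.exp_add, ← Real.exp_add]
    congr 1
    push_cast
    ring
  have h5 : Real.exp (5 * (s + l) / 2) = Real.exp (5 * s / 2) * Real.exp (l / 2) * Real.exp l ^ 2 := by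
    rw [← Real.exp_nat_mul, ← Real.exp_add, ← Real.exp_add]
    congr 1
    push_cast
    ring
  have h2 : Real.exp (2 * (s + l)) = Real.exp (2 * s) * Real.exp l ^ 2 := by
    rw [← Real.exp_nat_mul, ← Real.exp_add]
    congr 1
    push_cast
    ring
  unfold kt
  rw [h9, h5, h2, hm]
  have e : -(Real.pi * (((0 : ℕ) : ℝ) + 1) ^ 2 * (Real.exp (2 * s) * Real.exp l ^ 2)) =
      -(Real.pi * Real.exp l ^ 2 * Real.exp (2 * s)) := by
    push_cast
    ring
  rw [e]
  push_cast
  ring

theorem kt_cont (n : ℕ) : Continuous fun t : ℝ => kt n t := by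
  unfold kt
  fun_prop

/-- Task SUM. -/
theorem sum : S_SUM := by
  intro T hT hM1 hM2 z hz
  obtain ⟨M, hM⟩ := hM1
  obtain ⟨M', hM'⟩ := hM2
  -- the terms
  set F : ℕ → ℝ → ℂ := fun n t => ((kt n t : ℝ) : ℂ) * T (t : ℂ) * cexp (I * z * t) with hF
  set g : ℝ → ℝ := fun t => Real.exp (-(3 * t / 2)) * Real.exp (-(Real.exp (2 * t) / 2)) *
    (‖T (t : ℂ)‖ * Real.exp |t|) with hg
  have hM0 : 0 ≤ M := by
    have := (norm_nonneg _).trans (hM 0)
    simpa using this
  have hM'0 : 0 ≤ M' := by
    have := (norm_nonneg _).trans (hM' 0 le_rfl)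
    simpa using this
  have hexp : ∀ t : ℝ, ‖cexp (I * z * t)‖ ≤ Real.exp |t| := by
    intro t
    rw [Complex.norm_exp]
    apply Real.exp_le_exp.mpr
    have : (I * z * (t : ℂ)).re = -(z.im * t) := by
      simp [Complex.mul_re, Complex.mul_im]
    rw [this]
    have h1 : -(z.im * t) ≤ |z.im * t| := neg_le_abs _
    rw [abs_mul] at h1
    have h2 : |z.im| * |t| ≤ 1 * |t| := by
      apply mul_le_mul_of_nonneg_right hz (abs_nonneg _)
    linarith
  have hgc : Continuous g := by
    have h1 : Continuous fun t : ℝ => Real.exp (-(3 * t / 2)) * Real.exp (-(Real.exp (2 * t) / 2)) := by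
      fun_prop
    exact h1.mul (hT.norm.mul (Real.continuous_exp.comp continuous_abs))
  have hg0 : ∀ t, 0 ≤ g t := by
    intro t
    rw [hg]
    positivity
  have hgb : ∀ t, g t ≤ (M * Real.exp (3 * M ^ 2 / 4) + M') * (8 * (1 + t ^ 2)⁻¹) := by
    intro t
    have hpos : (0 : ℝ) < 1 + t ^ 2 := by positivity
    -- decay
    have hdec : Real.exp (-(|t| / 2)) ≤ 8 * (1 + t ^ 2)⁻¹ := by
      have h1 := Real.quadratic_le_exp_of_nonneg (x := |t| / 2) (by positivity)
      have h2 : (1 + t ^ 2) / 8 ≤ Real.exp (|t| / 2) := by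
        have h3 : |t| ^ 2 = t ^ 2 := sq_abs t
        have h4 : 0 ≤ |t| := abs_nonneg t
        nlinarith
      rw [Real.exp_neg]
      have h5 : (Real.exp (|t| / 2))⁻¹ ≤ ((1 + t ^ 2) / 8)⁻¹ := by
        apply inv_anti₀ (by positivity) h2
      rw [inv_div] at h5
      rw [div_eq_mul_inv] at h5
      exact h5
    have hA : 0 ≤ M * Real.exp (3 * M ^ 2 / 4) := by positivity
    have key : g t ≤ (M * Real.exp (3 * M ^ 2 / 4) + M') * Real.exp (-(|t| / 2)) := by
      rcases le_total t 0 with h | h
      · have h1 : |t| = -t := abs_of_nonpos h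
        have h2 := hM' t h
        have h3 : Real.exp (-(Real.exp (2 * t) / 2)) ≤ 1 := by
          apply Real.exp_le_one_iff.mpr
          have := Real.exp_pos (2 * t)
          linarith
        calc g t ≤ Real.exp (-(3 * t / 2)) * 1 * ((M' * Real.exp (4 * t)) * Real.exp |t|) := by
              change Real.exp (-(3 * t / 2)) * Real.exp (-(Real.exp (2 * t) / 2)) *
                (‖T (t : ℂ)‖ * Real.exp |t|) ≤ _
              gcongr
          _ = M' * (Real.exp (-(3 * t / 2)) * Real.exp (4 * t) * Real.exp |t|) := by ring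
          _ = M' * Real.exp (3 * t / 2) := by
              rw [← Real.exp_add, ← Real.exp_add, h1]
              congr 2
              ring
          _ ≤ M' * Real.exp (-(|t| / 2)) := by
              apply mul_le_mul_of_nonneg_left _ hM'0
              apply Real.exp_le_exp.mpr
              rw [h1]
              linarith
          _ ≤ (M * Real.exp (3 * M ^ 2 / 4) + M') * Real.exp (-(|t| / 2)) := by
              apply mul_le_mul_of_nonneg_right _ (Real.exp_pos _).le
              linarith
      · have h1 : |t| = t := abs_of_nonneg h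
        have h2 := hM t
        have h4 : M * t ^ 2 - Real.exp (2 * t) / 2 ≤ 3 * M ^ 2 / 4 := by
          have := Real.pow_div_factorial_le_exp (2 * t) (by positivity) 4
          have h6 : ((Nat.factorial 4 : ℕ) : ℝ) = 24 := by norm_num [Nat.factorial]
          rw [h6] at this
          nlinarith [sq_nonneg (2 * t ^ 2 - 3 * M)]
        calc g t ≤ Real.exp (-(3 * t / 2)) * Real.exp (-(Real.exp (2 * t) / 2)) *
              ((M * Real.exp (M * t ^ 2)) * Real.exp |t|) := by
              change Real.exp (-(3 * t / 2)) * Real.exp (-(Real.exp (2 * t) / 2)) *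
                (‖T (t : ℂ)‖ * Real.exp |t|) ≤ _
              gcongr
          _ = M * (Real.exp (-(3 * t / 2)) * Real.exp (-(Real.exp (2 * t) / 2)) *
              Real.exp (M * t ^ 2) * Real.exp |t|) := by ring
          _ = M * Real.exp ((M * t ^ 2 - Real.exp (2 * t) / 2) - t / 2) := by
              rw [← Real.exp_add, ← Real.exp_add, ← Real.exp_add, h1]
              congr 2
              ring
          _ ≤ M * Real.exp (3 * M ^ 2 / 4 + -(|t| / 2)) := by
              apply mul_le_mul_of_nonneg_left _ hM0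
              apply Real.exp_le_exp.mpr
              rw [h1]
              linarith
          _ = M * Real.exp (3 * M ^ 2 / 4) * Real.exp (-(|t| / 2)) := by
              rw [Real.exp_add]
              ring
          _ ≤ (M * Real.exp (3 * M ^ 2 / 4) + M') * Real.exp (-(|t| / 2)) := by
              apply mul_le_mul_of_nonneg_right _ (Real.exp_pos _).le
              linarith
    refine key.trans ?_
    apply mul_le_mul_of_nonneg_left hdec
    linarith
  have hgi : Integrable g := by
    have h1 : Integrable fun t : ℝ => (M * Real.exp (3 * M ^ 2 / 4) + M') * (8 * (1 + t ^ 2)⁻¹) :=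
      (integrable_inv_one_add_sq.const_mul 8).const_mul _
    refine h1.mono' hgc.aestronglyMeasurable (Eventually.of_forall fun t => ?_)
    rw [Real.norm_of_nonneg (hg0 t)]
    exact hgb t
  have hFb : ∀ n t, ‖F n t‖ ≤ 240 * (1 / ((n : ℝ) + 1) ^ 2) * g t := by
    intro n t
    rw [hF]
    simp only [norm_mul, Complex.norm_real, Real.norm_eq_abs]
    calc |kt n t| * ‖T (t : ℂ)‖ * ‖cexp (I * z * t)‖
        ≤ (240 * (1 / ((n : ℝ) + 1) ^ 2) *
          (Real.exp (-(3 * t / 2)) * Real.exp (-(Real.exp (2 * t) / 2)))) * ‖T (t : ℂ)‖ * Real.exp |t| := by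
          have h1 := kt_bd n t
          have h2 := hexp t
          gcongr
      _ = 240 * (1 / ((n : ℝ) + 1) ^ 2) * g t := by
          rw [hg]
          ring
  have hFc : ∀ n, Continuous (F n) := by
    intro n
    have h1 : Continuous fun t : ℝ => ((kt n t : ℝ) : ℂ) := Complex.continuous_ofReal.comp (kt_cont n)
    have h2 : Continuous fun t : ℝ => cexp (I * z * t) := by fun_prop
    exact (h1.mul hT).mul h2
  have hFi : ∀ n, Integrable (F n) := by
    intro n
    refine (hgi.const_mul (240 * (1 / ((n : ℝ) + 1) ^ 2))).mono' (hFc n).aestronglyMeasurable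
      (Eventually.of_forall fun t => hFb n t)
  have hsum : Summable fun n : ℕ => ∫ t, ‖F n t‖ := by
    have h1 : Summable fun n : ℕ => 240 * (1 / ((n : ℝ) + 1) ^ 2) * ∫ t, g t := by
      apply Summable.mul_right
      apply Summable.mul_left
      have := (summable_nat_add_iff 1).mpr (Real.summable_one_div_nat_pow.mpr (by norm_num : 1 < 2))
      refine this.congr fun n => ?_
      push_cast
      rfl
    refine Summable.of_nonneg_of_le (fun n => integral_nonneg fun t => norm_nonneg _) (fun n => ?_) h1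
    rw [← integral_const_mul]
    exact integral_mono (hFi n).norm (hgi.const_mul _) fun t => hFb n t
  have key := hasSum_integral_of_summable_integral_norm hFi hsum
  have e1 : (fun t : ℝ => ((Kx t : ℝ) : ℂ) * T (t : ℂ) * cexp (I * z * t)) = fun t : ℝ => ∑' n, F n t := by
    funext t
    rw [hF]
    simp only
    rw [tsum_mul_right, tsum_mul_right]
    unfold Kx
    rw [Complex.ofReal_tsum]
  rw [e1]
  have e2 : (fun n : ℕ => ((n : ℂ) + 1) ^ (-(1 / 2) - I * z) *
      Jx (fun w => T (w - Real.log ((n : ℝ) + 1))) z) = fun n : ℕ => ∫ t, F n t := by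
    funext n
    set l : ℝ := Real.log ((n : ℝ) + 1) with hl
    have hpow : ((n : ℂ) + 1) ^ (-(1 / 2) - I * z) = cexp ((l : ℂ) * (-(1 / 2) - I * z)) := by
      have h0 : ((n : ℂ) + 1) ≠ 0 := by
        exact_mod_cast Nat.succ_ne_zero n
      have h1 : Complex.log ((n : ℂ) + 1) = (l : ℂ) := by
        rw [hl, Complex.ofReal_log (by positivity)]
        push_cast
        rfl
      rw [Complex.cpow_def_of_ne_zero h0, h1]
    unfold Jx
    rw [← integral_add_right_eq_self (fun t : ℝ => ((kt 0 t : ℝ) : ℂ) * T ((t : ℂ) - (l : ℂ)) *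
      cexp (I * z * t)) l, ← integral_const_mul]
    congr 1
    funext s
    rw [hpow, kt_shift n s, ← hl, hF]
    simp only
    have e3 : (((s + l : ℝ)) : ℂ) - (l : ℂ) = (s : ℂ) := by
      push_cast
      ring
    rw [e3]
    push_cast
    have e4 : cexp ((l : ℂ) * (-(1 / 2) - I * z)) * (cexp ((l : ℂ) / 2) * cexp (I * z * ((s : ℂ) + (l : ℂ)))) =
        cexp (I * z * s) := by
      rw [← Complex.exp_add, ← Complex.exp_add]
      congr 1
      ring
    rw [← e4]
    ring
  rw [e2]
  exact key

end Pool.Agent.N265.KL
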